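import Pool.Agent.Work.MP_689d9c_gt.S.Main
import Pool.Agent.Work.MP_689d9c_gt.Nec

set_option autoImplicit false

namespace Pool.Agent.Results.MP_689d9c_gt.SharpThreshold

/-- The Heisenberg group with the Koranyi distance raised to the power `ε` embeds bi-Lipschitzly in
Euclidean `n`-space exactly when `4 < n ε`. -/
theorem result (n : ℕ) (ε : ℝ) (h0 : 0 < ε) (h1 : ε < 1) :
    (∃ f : ℝ × ℝ × ℝ → EuclideanSpace ℝ (Fin n), ∃ C : ℝ, 0 < C ∧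
      ∀ p q : ℝ × ℝ × ℝ,
        C⁻¹ * (((q.1 - p.1) ^ 2 + (q.2.1 - p.2.1) ^ 2) ^ 2
              + (q.2.2 - p.2.2 - 2 * (p.1 * q.2.1 - p.2.1 * q.1)) ^ 2) ^ (ε / 4)
            ≤ dist (f p) (f q) ∧
        dist (f p) (f q) ≤
          C * (((q.1 - p.1) ^ 2 + (q.2.1 - p.2.1) ^ 2) ^ 2
              + (q.2.2 - p.2.2 - 2 * (p.1 * q.2.1 - p.2.1 * q.1)) ^ 2) ^ (ε / 4)) ↔
      4 < (n : ℝ) * ε :=
  ⟨fun ⟨f, C, hC, h⟩ => Pool.Agent.Work.MP_689d9c_gt.Nec.necessity n ε h0 h1 f C hC h,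
    Pool.Agent.Work.MP_689d9c_gt.sufficiency n ε h0 h1⟩

end Pool.Agent.Results.MP_689d9c_gt.SharpThreshold
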